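import Pool.Agent.H90.STE.Stmts2
import Pool.Agent.H57.STK2.TV2

/-!
# Measure in a slab and sets of times (row GE of board ste2)
-/

set_option autoImplicit false

namespace Pool.STE

open Finset Real MeasureTheory
open scoped RealInnerProductSpace ENNReal
open Pool.Agent.H49.Ent Pool.Agent.H32.Dense Pool.STK Pool.KA
open Pool.Agent.H53.Kak (E tube)
open Pool.Agent.H53.Dns (Mx psl slp)

namespace GE84

variable {d : ℕ} {ι : Type}

/-- time of a point, in units of `2 ^ (-J)` -/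
noncomputable def tm (k : Fin (d + 1)) (g : ℤ) (J : ℕ) (x : E d) : ℕ := ⌊2 ^ J * (x k / hm d - g)⌋₊

/-- part of the slab at the time `t` -/
def sb (k : Fin (d + 1)) (g : ℤ) (J t : ℕ) : Set (E d) := {x | x ∈ (sl k g : Set (E d)) ∧ tm k g J x = t}

lemma meas_coord (k : Fin (d + 1)) : Measurable (fun x : E d => x k) :=
  (continuous_apply k |>.comp (PiLp.continuous_ofLp 2 _)).measurable

lemma meas_sl (k : Fin (d + 1)) (g : ℤ) : MeasurableSet (sl k g : Set (E d)) :=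
  (measurableSet_le measurable_const (meas_coord k)).inter (measurableSet_lt (meas_coord k) measurable_const)

lemma meas_tm (k : Fin (d + 1)) (g : ℤ) (J : ℕ) : Measurable (tm k g J : E d → ℕ) := by
  unfold tm
  exact Nat.measurable_floor.comp ((((meas_coord k).div_const _).sub_const _).const_mul _)

lemma meas_sb (k : Fin (d + 1)) (g : ℤ) (J t : ℕ) : MeasurableSet (sb k g J t : Set (E d)) := by
  have : MeasurableSet {x : E d | tm k g J x = t} := meas_tm k g J (measurableSet_singleton t)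
  exact (meas_sl k g).inter this

lemma time_bounds {k : Fin (d + 1)} {g : ℤ} {x : E d} (hx : x ∈ (sl k g : Set (E d))) :
    0 ≤ x k / hm d - g ∧ x k / hm d - g < 1 := by
  have h0 := TV2.hm_pos d
  obtain ⟨h1, h2⟩ := hx
  constructor
  · have : (g : ℝ) ≤ x k / hm d := by rw [le_div_iff₀ h0]; exact h1
    linarith
  · have : x k / hm d < (g : ℝ) + 1 := by rw [div_lt_iff₀ h0]; exact h2
    linarith

lemma tm_lt {k : Fin (d + 1)} {g : ℤ} {J : ℕ} {x : E d} (hx : x ∈ (sl k g : Set (E d))) :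
    tm k g J x < 2 ^ J := by
  obtain ⟨h1, h2⟩ := time_bounds hx
  unfold tm
  rw [Nat.floor_lt (by positivity)]
  push_cast
  have : (0:ℝ) < 2 ^ J := by positivity
  nlinarith

lemma tm_bounds {k : Fin (d + 1)} {g : ℤ} {J : ℕ} {x : E d} (hx : x ∈ (sl k g : Set (E d))) :
    (tm k g J x : ℝ) ≤ 2 ^ J * (x k / hm d - g) ∧ 2 ^ J * (x k / hm d - g) < tm k g J x + 1 := by
  obtain ⟨h1, h2⟩ := time_bounds hx
  unfold tm
  exact ⟨Nat.floor_le (by positivity), Nat.lt_floor_add_one _⟩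

/-- volume of the part of a tube at one time -/
lemma vol_le {k : Fin (d + 1)} {g : ℤ} {δ : ℝ} (hδ : 0 < δ) {J : ℕ} {c e : ι → E d} {i : ι}
    (hu : ‖e i‖ = 1) (hM : Mx k (e i)) (t : ℕ) :
    volume (tube δ (c i) (e i) ∩ sb k g J t) ≤
      ENNReal.ofReal (4 ^ d * hm d * (δ ^ d * ((2 : ℝ) ^ J)⁻¹)) := by
  have h0 := TV2.hm_pos d
  have h2J : (0:ℝ) < 2 ^ J := by positivity
  obtain ⟨a, ha⟩ : ∃ a, a = ((g : ℝ) + t * ((2 : ℝ) ^ J)⁻¹) * hm d := ⟨_, rfl⟩
  obtain ⟨b, hb⟩ : ∃ b, b = ((g : ℝ) + (t + 1) * ((2 : ℝ) ^ J)⁻¹) * hm d := ⟨_, rfl⟩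
  set Q : Set (ℝ × (Fin d → ℝ)) := {z | (a ≤ z.1 ∧ z.1 < b) ∧
    ∀ l, |z.2 l - pt (uT k g c e) (dT k e) (z.1 / hm d - g) i l| ≤ 2 * δ} with hQ
  have hQm : MeasurableSet Q := by
    have h1 : MeasurableSet {z : ℝ × (Fin d → ℝ) | a ≤ z.1 ∧ z.1 < b} :=
      (measurableSet_le measurable_const measurable_fst).inter
        (measurableSet_lt measurable_fst measurable_const)
    have h2 : MeasurableSet {z : ℝ × (Fin d → ℝ) |
        ∀ l, |z.2 l - pt (uT k g c e) (dT k e) (z.1 / hm d - g) i l| ≤ 2 * δ} := by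
      have h3 : {z : ℝ × (Fin d → ℝ) |
          ∀ l, |z.2 l - pt (uT k g c e) (dT k e) (z.1 / hm d - g) i l| ≤ 2 * δ} =
          ⋂ l, {z : ℝ × (Fin d → ℝ) |
            |z.2 l - pt (uT k g c e) (dT k e) (z.1 / hm d - g) i l| ≤ 2 * δ} := by
        ext z
        simp
      rw [h3]
      refine MeasurableSet.iInter fun l => measurableSet_le ?_ measurable_const
      have h4 : Measurable fun z : ℝ × (Fin d → ℝ) =>
          pt (uT k g c e) (dT k e) (z.1 / hm d - g) i l :=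
        (TV2.continuous_pt _ _ i l).measurable.comp ((measurable_fst.div_const _).sub_const _)
      have h5 : Measurable fun z : ℝ × (Fin d → ℝ) => z.2 l :=
        (measurable_pi_apply l).comp measurable_snd
      exact (h5.sub h4).abs
    exact h1.inter h2
  have hsub : tube δ (c i) (e i) ∩ sb k g J t ⊆ TV2.T k ⁻¹' Q := by
    rintro x ⟨hx, hxs, hxt⟩
    obtain ⟨h1, h2⟩ := tm_bounds (J := J) hxs
    rw [hxt] at h1 h2
    refine ⟨⟨?_, ?_⟩, fun l => ?_⟩
    · show a ≤ x k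
      have h3 : (t : ℝ) * ((2 : ℝ) ^ J)⁻¹ ≤ x k / hm d - g := by
        rw [← div_eq_mul_inv, div_le_iff₀ h2J]; linarith
      have h4 : (g : ℝ) + t * ((2 : ℝ) ^ J)⁻¹ ≤ x k / hm d := by linarith
      rw [le_div_iff₀ h0] at h4
      rw [ha]; exact h4
    · show x k < b
      have h3 : x k / hm d - g < ((t : ℝ) + 1) * ((2 : ℝ) ^ J)⁻¹ := by
        rw [← div_eq_mul_inv, lt_div_iff₀ h2J]; linarith
      have h4 : x k / hm d < (g : ℝ) + (t + 1) * ((2 : ℝ) ^ J)⁻¹ := by linarith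
      rw [div_lt_iff₀ h0] at h4
      rw [hb]; exact h4
    · show |x (k.succAbove l) - pt (uT k g c e) (dT k e) (x k / hm d - g) i l| ≤ 2 * δ
      rw [← TV2.psl_eq]
      exact Pool.Agent.H53.Dns.near_psl hδ.le hM hu hx l
  refine (measure_mono hsub).trans ?_
  rw [(TV2.measurePreserving_T k).measure_preimage hQm.nullMeasurableSet, Measure.volume_eq_prod,
    Measure.prod_apply hQm]
  have h4 : ∀ h : ℝ, volume (Prod.mk h ⁻¹' Q) ≤
      (Set.Ico a b).indicator (fun _ => ENNReal.ofReal ((4 * δ) ^ d)) h := by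
    intro h
    by_cases hh : h ∈ Set.Ico a b
    · rw [Set.indicator_of_mem hh, ← TV2.volume_box (fun l => pt (uT k g c e) (dT k e) (h / hm d - g) i l) hδ]
      exact measure_mono fun y hy => hy.2
    · rw [Set.indicator_of_notMem hh]
      have : Prod.mk h ⁻¹' Q = ∅ := by
        ext y
        constructor
        · intro hy; exact absurd hy.1 hh
        · intro hy; exact absurd hy (Set.notMem_empty _)
      rw [this, measure_empty]
  refine (lintegral_mono h4).trans ?_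
  rw [lintegral_indicator_const measurableSet_Ico, Real.volume_Ico, ← ENNReal.ofReal_mul (by positivity)]
  apply ENNReal.ofReal_le_ofReal
  apply le_of_eq
  rw [ha, hb, mul_pow]
  ring

/-- the number of elements of `V` whose parts contain a given point -/
lemma near_fl {k : Fin (d + 1)} {g : ℤ} {δ : ℝ} (hδ : 0 < δ) {J : ℕ} (hJ : 1 / 2 * δ ≤ ((2 : ℝ) ^ J)⁻¹)
    {c e : ι → E d} {i : ι} (hu : ‖e i‖ = 1) (hM : Mx k (e i)) {x : E d} {t : ℕ}
    (hx : x ∈ tube δ (c i) (e i)) (hs : x ∈ (sb k g J t : Set (E d))) (l : Fin d) :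
    fl J (pt (uT k g c e) (dT k e) ((t : ℝ) / 2 ^ J) i) l ∈
      Finset.Icc (⌊2 ^ J * x (k.succAbove l)⌋ - 6) (⌊2 ^ J * x (k.succAbove l)⌋ + 6) := by
  have h0 := TV2.hm_pos d
  have h2J : (0:ℝ) < 2 ^ J := by positivity
  have hhm1 : hm d ≤ 1 := by
    unfold hm
    rw [div_le_one (by positivity)]
    have : (0:ℝ) ≤ d := Nat.cast_nonneg d
    linarith
  obtain ⟨hxs, hxt⟩ := hs
  obtain ⟨h1, h2⟩ := tm_bounds (J := J) hxs
  rw [hxt] at h1 h2
  obtain ⟨s, hsd⟩ : ∃ s, s = x k / hm d - g := ⟨_, rfl⟩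
  rw [← hsd] at h1 h2
  have h3 := Pool.Agent.H53.Dns.near_psl hδ.le hM hu hx l
  rw [TV2.psl_eq, ← hsd] at h3
  have hslp := hM.slp hu l
  have e1 : pt (uT k g c e) (dT k e) s i l - pt (uT k g c e) (dT k e) ((t : ℝ) / 2 ^ J) i l =
      (s - (t : ℝ) / 2 ^ J) * (hm d * slp k (e i) l) := by
    simp only [pt, dT]
    ring
  have h4 : |2 ^ J * (pt (uT k g c e) (dT k e) s i l - pt (uT k g c e) (dT k e) ((t : ℝ) / 2 ^ J) i l)| ≤ 1 := by
    rw [e1]
    have e2 : (2:ℝ) ^ J * ((s - (t : ℝ) / 2 ^ J) * (hm d * slp k (e i) l)) = (2 ^ J * s - t) * (hm d * slp k (e i) l) := by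
      field_simp
    rw [e2, abs_mul, abs_mul, abs_of_pos h0]
    have h5 : |(2:ℝ) ^ J * s - t| ≤ 1 := by rw [abs_le]; constructor <;> linarith
    have h6 : hm d * |slp k (e i) l| ≤ 1 := by
      calc hm d * |slp k (e i) l| ≤ 1 * 1 := mul_le_mul hhm1 hslp (abs_nonneg _) zero_le_one
        _ = 1 := one_mul 1
    calc _ ≤ (1:ℝ) * 1 := mul_le_mul h5 h6 (by positivity) zero_le_one
      _ = 1 := one_mul 1
  have h5 : 2 ^ J * (2 * δ) ≤ 4 := by
    have := mul_le_mul_of_nonneg_left hJ h2J.le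
    rw [mul_inv_cancel₀ h2J.ne'] at this
    linarith
  have h6 : |2 ^ J * x (k.succAbove l) - 2 ^ J * pt (uT k g c e) (dT k e) s i l| ≤ 4 := by
    rw [← mul_sub, abs_mul, abs_of_pos h2J]
    exact (mul_le_mul_of_nonneg_left h3 h2J.le).trans h5
  rw [← mul_sub] at h6
  show ⌊2 ^ J * pt (uT k g c e) (dT k e) ((t : ℝ) / 2 ^ J) i l⌋ ∈ _
  obtain ⟨A, hA⟩ : ∃ A, A = 2 ^ J * x (k.succAbove l) := ⟨_, rfl⟩
  obtain ⟨B, hB⟩ : ∃ B, B = 2 ^ J * pt (uT k g c e) (dT k e) ((t : ℝ) / 2 ^ J) i l := ⟨_, rfl⟩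
  rw [← hA, ← hB, Finset.mem_Icc]
  have h7 : |A - B| ≤ 5 := by
    have e3 : A - B = 2 ^ J * (x (k.succAbove l) - pt (uT k g c e) (dT k e) s i l) +
        2 ^ J * (pt (uT k g c e) (dT k e) s i l - pt (uT k g c e) (dT k e) ((t : ℝ) / 2 ^ J) i l) := by
      rw [hA, hB]; ring
    rw [e3]
    exact (abs_add_le _ _).trans (by linarith)
  rw [abs_le] at h7
  have f1 := Int.floor_le A
  have f2 := Int.lt_floor_add_one A
  have f3 := Int.floor_le B
  have f4 := Int.lt_floor_add_one B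
  constructor
  · have : ((⌊A⌋ - 6 : ℤ) : ℝ) < ((⌊B⌋ : ℤ) : ℝ) + 1 := by push_cast; linarith
    have h8 : ⌊A⌋ - 6 < ⌊B⌋ + 1 := by exact_mod_cast this
    omega
  · have : ((⌊B⌋ : ℤ) : ℝ) < ((⌊A⌋ + 6 : ℤ) : ℝ) + 1 := by push_cast; linarith
    have h8 : ⌊B⌋ < ⌊A⌋ + 6 + 1 := by exact_mod_cast this
    omega

end GE84

open GE84 in
/-- **GE**. -/
theorem ge : GEStmt := by
  classical
  intro d
  have h0 := TV2.hm_pos d
  obtain ⟨c₃, hc₃⟩ : ∃ c₃ : ℝ, c₃ = min (1 / (2 * (4 ^ d * hm d))) (1 / (2 * 13 ^ d)) := ⟨_, rfl⟩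
  have hc3 : 0 < c₃ := by rw [hc₃]; exact lt_min (by positivity) (by positivity)
  refine ⟨1 / 2, 1, c₃, by norm_num, by norm_num, hc3, ?_⟩
  intro δ hδ hδ1
  -- the scale
  have hJex : ∃ J : ℕ, ((2 : ℝ) ^ J)⁻¹ ≤ δ := by
    obtain ⟨n, hn⟩ := exists_pow_lt_of_lt_one hδ (by norm_num : (1 / 2 : ℝ) < 1)
    exact ⟨n, by rw [← inv_pow, ← one_div]; exact hn.le⟩
  have hJs := Nat.find_spec hJex
  obtain ⟨J, hJd⟩ : ∃ J, J = Nat.find hJex := ⟨_, rfl⟩
  rw [← hJd] at hJs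
  have hJlow : 1 / 2 * δ ≤ ((2 : ℝ) ^ J)⁻¹ := by
    rcases Nat.eq_zero_or_pos J with h | h
    · rw [h, pow_zero, inv_one]; linarith
    · have h1 := Nat.find_min hJex (m := J - 1) (by omega)
      push Not at h1
      have h2 : (2 : ℝ) ^ J = 2 * 2 ^ (J - 1) := by rw [← pow_succ']; congr 1; omega
      rw [h2, mul_inv]
      linarith
  have h2J : (0:ℝ) < 2 ^ J := by positivity
  refine ⟨J, hJlow, by linarith, ?_⟩
  intro ι _ c e k g q hC X lam hX hlam hlam1 hvol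
  obtain ⟨κ, hκ⟩ : ∃ κ : ℝ, κ = lam * (δ ^ d * ((2 : ℝ) ^ J)⁻¹) / 2 := ⟨_, rfl⟩
  have hκ0 : 0 < κ := by rw [hκ]; positivity
  obtain ⟨Pt, hPt⟩ : ∃ Pt : ι → ℕ → Set (E d), Pt = fun i t => X ∩ tube δ (c i) (e i) ∩ sb k g J t := ⟨_, rfl⟩
  have hPm : ∀ i t, MeasurableSet (Pt i t) := by
    intro i t
    rw [hPt]
    exact (hX.inter (Pool.Agent.H53.Kak.measurableSet_tube _ _ _)).inter (meas_sb k g J t)
  obtain ⟨S, hS⟩ : ∃ S : ι → Finset ℕ, S = fun i => (Finset.range (2 ^ J)).filter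
    fun t => ENNReal.ofReal κ ≤ volume (Pt i t) := ⟨_, rfl⟩
  obtain ⟨f, hf⟩ : ∃ f : ι × ℕ → ℕ × (Fin d → ℤ), f = fun z => (z.2, fl J (pt (uT k g c e) (dT k e) ((z.2 : ℝ) / 2 ^ J) z.1)) := ⟨_, rfl⟩
  obtain ⟨V, hV⟩ : ∃ V : Finset (ℕ × (Fin d → ℤ)), V =
    (Finset.univ.biUnion fun i => (S i).image fun t => f (i, t)) := ⟨_, rfl⟩
  refine ⟨S, V, ?_, ?_, ?_⟩
  · intro i
    refine ⟨by rw [hS]; exact Finset.filter_subset _ _, ?_⟩
    have h1 : volume (X ∩ tube δ (c i) (e i) ∩ sl k g) ≤ ∑ t ∈ Finset.range (2 ^ J), volume (Pt i t) := by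
      have hsub : X ∩ tube δ (c i) (e i) ∩ sl k g ⊆ ⋃ t ∈ Finset.range (2 ^ J), Pt i t := by
        rintro x ⟨hx1, hx2⟩
        rw [Set.mem_iUnion₂]
        refine ⟨tm k g J x, Finset.mem_range.2 (tm_lt hx2), ?_⟩
        rw [hPt]
        exact ⟨hx1, hx2, rfl⟩
      exact (measure_mono hsub).trans (measure_biUnion_finset_le _ _)
    obtain ⟨D, hD⟩ : ∃ D : ℝ, D = 4 ^ d * hm d * (δ ^ d * ((2 : ℝ) ^ J)⁻¹) := ⟨_, rfl⟩
    have hD0 : 0 < D := by rw [hD]; positivity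
    have h2 : ∑ t ∈ Finset.range (2 ^ J), volume (Pt i t) ≤
        ENNReal.ofReal (∑ t ∈ Finset.range (2 ^ J), (if t ∈ S i then D else 0) + ∑ t ∈ Finset.range (2 ^ J), κ) := by
      rw [← Finset.sum_add_distrib, ENNReal.ofReal_sum_of_nonneg (fun t _ => by split_ifs <;> positivity)]
      refine Finset.sum_le_sum fun t ht => ?_
      by_cases hts : t ∈ S i
      · rw [if_pos hts]
        refine le_trans ?_ (ENNReal.ofReal_le_ofReal (show D ≤ D + κ by linarith))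
        rw [hD]
        refine le_trans (measure_mono ?_) (vol_le (c := c) (g := g) (k := k) (J := J) hδ (hC.unit i) (hC.mx i) t)
        rw [hPt]
        rintro x ⟨⟨_, h3⟩, h4⟩
        exact ⟨h3, h4⟩
      · rw [if_neg hts, zero_add]
        rw [hS] at hts
        by_contra hcon
        exact hts (Finset.mem_filter.2 ⟨ht, (not_le.1 hcon).le⟩)
    have h3 := (hvol i).trans (h1.trans h2)
    rw [ENNReal.ofReal_le_ofReal_iff (add_nonneg (Finset.sum_nonneg fun t _ => by split_ifs <;> positivity)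
      (Finset.sum_nonneg fun t _ => hκ0.le))] at h3
    have h4 : ∑ t ∈ Finset.range (2 ^ J), (if t ∈ S i then D else 0) = (S i).card * D := by
      rw [← Finset.sum_filter, Finset.sum_const, nsmul_eq_mul]
      congr 2
      rw [Finset.filter_mem_eq_inter, Finset.inter_eq_right.2]
      rw [hS]; exact Finset.filter_subset _ _
    have h5 : ∑ t ∈ Finset.range (2 ^ J), κ = lam * δ ^ d / 2 := by
      rw [Finset.sum_const, Finset.card_range, nsmul_eq_mul, hκ]
      push_cast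
      field_simp
    rw [h4, h5] at h3
    have h6 : lam * δ ^ d / 2 ≤ (S i).card * D := by linarith
    have hδd : 0 < δ ^ d := by positivity
    have h7 : lam / 2 * 2 ^ J ≤ (S i).card * (4 ^ d * hm d) := by
      have e1 : (S i).card * D = ((S i).card * (4 ^ d * hm d)) * δ ^ d / 2 ^ J := by rw [hD]; field_simp
      rw [e1, le_div_iff₀ h2J] at h6
      have e2 : lam * δ ^ d / 2 * 2 ^ J = (lam / 2 * 2 ^ J) * δ ^ d := by ring
      rw [e2] at h6
      exact le_of_mul_le_mul_right h6 hδd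
    have h8 : c₃ * (2 * (4 ^ d * hm d)) ≤ 1 := by
      have : c₃ ≤ 1 / (2 * (4 ^ d * hm d)) := by rw [hc₃]; exact min_le_left _ _
      rwa [le_div_iff₀ (by positivity)] at this
    have h9 : c₃ * (lam / 2 * 2 ^ J) ≤ c₃ * ((S i).card * (4 ^ d * hm d)) := mul_le_mul_of_nonneg_left h7 hc3.le
    have h10 : c₃ * lam * 2 ^ J ≤ (c₃ * (2 * (4 ^ d * hm d))) * (S i).card := by
      calc c₃ * lam * 2 ^ J = 2 * (c₃ * (lam / 2 * 2 ^ J)) := by ring
        _ ≤ 2 * (c₃ * ((S i).card * (4 ^ d * hm d))) := by linarith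
        _ = _ := by ring
    refine h10.trans ?_
    have : (0:ℝ) ≤ (S i).card := Nat.cast_nonneg _
    nlinarith
  · intro i t ht
    rw [hV, Finset.mem_biUnion]
    refine ⟨i, Finset.mem_univ i, Finset.mem_image.2 ⟨t, ht, ?_⟩⟩
    rw [hf]
  · -- representatives
    have hrep : ∀ v ∈ V, ∃ z : ι × ℕ, z.2 ∈ S z.1 ∧ f z = v := by
      intro v hv
      rw [hV, Finset.mem_biUnion] at hv
      obtain ⟨i, _, hv⟩ := hv
      obtain ⟨t, ht, h⟩ := Finset.mem_image.1 hv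
      exact ⟨(i, t), ht, h⟩
    rcases V.eq_empty_or_nonempty with hVe | ⟨v0, hv0⟩
    · rw [hVe, Finset.card_empty]
      simp
    have : Nonempty (ι × ℕ) := ⟨(hrep v0 hv0).choose⟩
    choose! r hr1 hr2 using hrep
    obtain ⟨U, hU⟩ : ∃ U : Set (E d), U = X ∩ (⋃ i, tube δ (c i) (e i)) ∩ sl k g := ⟨_, rfl⟩
    have hUm : MeasurableSet U := by
      rw [hU]
      exact (hX.inter (MeasurableSet.iUnion fun i => Pool.Agent.H53.Kak.measurableSet_tube _ _ _)).inter (meas_sl k g)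
    rw [← hU]
    have h1 : ∀ v ∈ V, ENNReal.ofReal κ ≤ volume (Pt (r v).1 (r v).2) := by
      intro v hv
      have := hr1 v hv
      rw [hS] at this
      exact (Finset.mem_filter.1 this).2
    have h2 : ENNReal.ofReal (κ * V.card) ≤ ∑ v ∈ V, volume (Pt (r v).1 (r v).2) := by
      calc ENNReal.ofReal (κ * V.card) = ∑ v ∈ V, ENNReal.ofReal κ := by
            rw [Finset.sum_const, nsmul_eq_mul, mul_comm, ENNReal.ofReal_mul (Nat.cast_nonneg _), ENNReal.ofReal_natCast]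
        _ ≤ _ := Finset.sum_le_sum h1
    have h3 : ∀ x : E d, ∑ v ∈ V, (Pt (r v).1 (r v).2).indicator (fun _ => (1 : ℝ≥0∞)) x ≤
        U.indicator (fun _ => ((13 ^ d : ℕ) : ℝ≥0∞)) x := by
      intro x
      have hPU : ∀ v, x ∈ Pt (r v).1 (r v).2 → x ∈ U := by
        intro v hx
        rw [hPt] at hx
        obtain ⟨⟨hx1, hx2⟩, hx3⟩ := hx
        rw [hU]
        exact ⟨⟨hx1, Set.mem_iUnion.2 ⟨_, hx2⟩⟩, hx3.1⟩
      by_cases hxU : x ∈ U
      · rw [Set.indicator_of_mem hxU]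
        have h4 : ∑ v ∈ V, (Pt (r v).1 (r v).2).indicator (fun _ => (1 : ℝ≥0∞)) x =
            ((V.filter fun v => x ∈ Pt (r v).1 (r v).2).card : ℕ) := by
          rw [Finset.card_filter]
          push_cast
          refine Finset.sum_congr rfl fun v _ => ?_
          by_cases h : x ∈ Pt (r v).1 (r v).2
          · rw [if_pos h, Set.indicator_of_mem h]
          · rw [if_neg h, Set.indicator_of_notMem h]
        rw [h4]
        have h5 : (V.filter fun v => x ∈ Pt (r v).1 (r v).2) ⊆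
            ({tm k g J x} : Finset ℕ) ×ˢ Fintype.piFinset fun l : Fin d =>
              Finset.Icc (⌊2 ^ J * x (k.succAbove l)⌋ - 6) (⌊2 ^ J * x (k.succAbove l)⌋ + 6) := by
          intro v hv
          rw [Finset.mem_filter] at hv
          obtain ⟨hv1, hv2⟩ := hv
          rw [hPt] at hv2
          obtain ⟨⟨_, hv3⟩, hv4⟩ := hv2
          have hfv := hr2 v hv1
          rw [← hfv, hf, Finset.mem_product, Finset.mem_singleton, Fintype.mem_piFinset]
          exact ⟨hv4.2.symm, fun l => near_fl hδ hJlow (hC.unit _) (hC.mx _) hv3 hv4 l⟩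
        have h6 := Finset.card_le_card h5
        rw [Finset.card_product, Finset.card_singleton, one_mul, Fintype.card_piFinset] at h6
        have h7 : ∀ l : Fin d, (Finset.Icc (⌊2 ^ J * x (k.succAbove l)⌋ - 6) (⌊2 ^ J * x (k.succAbove l)⌋ + 6)).card = 13 := by
          intro l
          rw [Int.card_Icc]
          omega
        rw [Finset.prod_congr rfl fun l _ => h7 l, Finset.prod_const, Finset.card_univ, Fintype.card_fin] at h6
        exact_mod_cast h6
      · rw [Set.indicator_of_notMem hxU]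
        refine le_of_eq (Finset.sum_eq_zero fun v _ => Set.indicator_of_notMem ?_ _)
        exact fun h => hxU (hPU v h)
    have h4 : ∑ v ∈ V, volume (Pt (r v).1 (r v).2) ≤ ((13 ^ d : ℕ) : ℝ≥0∞) * volume U := by
      calc ∑ v ∈ V, volume (Pt (r v).1 (r v).2)
          = ∑ v ∈ V, ∫⁻ x, (Pt (r v).1 (r v).2).indicator (fun _ => (1 : ℝ≥0∞)) x := by
            refine Finset.sum_congr rfl fun v _ => ?_
            rw [lintegral_indicator_const (hPm _ _), one_mul]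
        _ = ∫⁻ x, ∑ v ∈ V, (Pt (r v).1 (r v).2).indicator (fun _ => (1 : ℝ≥0∞)) x :=
            (lintegral_finsetSum _ fun v _ => Measurable.indicator measurable_const (hPm _ _)).symm
        _ ≤ ∫⁻ x, U.indicator (fun _ => ((13 ^ d : ℕ) : ℝ≥0∞)) x := lintegral_mono h3
        _ = _ := lintegral_indicator_const hUm _
    have h5 := h2.trans h4
    have hN : ENNReal.ofReal ((13:ℝ) ^ d) = ((13 ^ d : ℕ) : ℝ≥0∞) := by
      rw [← ENNReal.ofReal_natCast]
      congr 1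
      push_cast
      rfl
    have h13 : (0:ℝ) < 13 ^ d := by positivity
    have h6 : ENNReal.ofReal (κ * V.card / 13 ^ d) ≤ volume U := by
      rw [ENNReal.ofReal_div_of_pos h13, hN]
      exact ENNReal.div_le_of_le_mul' h5
    refine le_trans (ENNReal.ofReal_le_ofReal ?_) h6
    rw [le_div_iff₀ h13, hκ]
    have h7 : c₃ * (2 * 13 ^ d) ≤ 1 := by
      have : c₃ ≤ 1 / (2 * 13 ^ d) := by rw [hc₃]; exact min_le_right _ _
      rwa [le_div_iff₀ (by positivity)] at this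
    have h8 : 0 ≤ lam * (δ ^ d * ((2 : ℝ) ^ J)⁻¹) / 2 * V.card := by positivity
    calc c₃ * lam * δ ^ d * ((2 : ℝ) ^ J)⁻¹ * V.card * 13 ^ d =
        (c₃ * (2 * 13 ^ d)) * (lam * (δ ^ d * ((2 : ℝ) ^ J)⁻¹) / 2 * V.card) := by ring
      _ ≤ 1 * (lam * (δ ^ d * ((2 : ℝ) ^ J)⁻¹) / 2 * V.card) := mul_le_mul_of_nonneg_right h7 h8
      _ = _ := one_mul _

end Pool.STE
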